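import Pool.Agent.T6.H56.EA.Grid

set_option autoImplicit false
set_option maxHeartbeats 1000000

/-! # Isolated Chen pairs plus clusters of consecutive primes

`n = k + m` is admissible if `6 k - 1` and `p_m` both are the lower members of twin prime pairs. Here `6 k - 1` is
a prime and `6 k + 1` has at most two prime factors, all other integers near `6 k` have small prime factors, the
same holds for all terms of a one-coloured progression `k, k + d, ..., k + (s - 1) d`, and `p_m, ..., p_{m + j}` are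
consecutive primes in a bounded interval with almost prime companions `p_{m + l} + 2`. Then all the `s (j + 1)`
integers `n + i d + l` are represented.
-/

namespace Pool.Agent.Results.MP_ea8352_nt.ChenGrids

open Finset Filter

/-- The `m`-th prime: `p 1 = 2`, `p 2 = 3`, and so on. -/
noncomputable def p (m : ℕ) : ℕ := Nat.nth Nat.Prime (m - 1)

/-- `6 k - 1` is a prime, `6 k + 1` has at most two prime factors, counted with multiplicity, all of them are larger
than `X ^ (1 / 9)`, and every other integer `z` at distance at most `w` from `6 k` has a prime factor `≤ y`. -/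
def Chen (X : ℕ) (w y : ℝ) (k : ℕ) : Prop :=
  (6 * k - 1).Prime ∧ (6 * k + 1).primeFactorsList.length ≤ 2 ∧
    (∀ q : ℕ, q.Prime → q ∣ 6 * k + 1 → (X : ℝ) ^ (1 / 9 : ℝ) < (q : ℝ)) ∧
    ∀ z : ℤ, |(z : ℝ) - 6 * k| ≤ w → z ≠ 6 * k - 1 → z ≠ 6 * k + 1 →
      ∃ q : ℕ, q.Prime ∧ (q : ℝ) ≤ y ∧ (q : ℤ) ∣ z

/-- The consecutive primes `p_m, p_{m+1}, ..., p_{m+j}` lie in an interval of length `C`, and each of the numbers
`p_m + 2, p_{m+1} + 2, ..., p_{m+j} + 2` has at most `r` prime factors, counted with multiplicity. -/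
def Cluster (j r C m : ℕ) : Prop :=
  p (m + j) ≤ p m + C ∧ ∀ l ≤ j, (p (m + l) + 2).primeFactorsList.length ≤ r

/-- The `n` with `X < n ≤ 3 X` which have a decomposition `n = k + m` with `k, m ≥ 1`, `m ≤ (log X) ^ A` such that
`p_m, ..., p_{m+j}` form a cluster and for some `d` with `1 ≤ d ≤ (log X) ^ A` all the terms of the progression
`k, k + d, ..., k + (s - 1) d` are isolated Chen indices and have the same colour. -/
def Grid (s j r C A : ℕ) (ε β : ℝ) {q : ℕ} (χ : ℕ → Fin q) (X : ℕ) : Set ℕ :=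
  {n : ℕ | X < n ∧ n ≤ 3 * X ∧ ∃ k m d : ℕ, 1 ≤ k ∧ 1 ≤ m ∧ 1 ≤ d ∧ k + m = n ∧
    (m : ℝ) ≤ Real.log X ^ A ∧ (d : ℝ) ≤ Real.log X ^ A ∧
    (∀ i < s, Chen X (ε * Real.log X) ((X : ℝ) ^ β) (k + i * d) ∧ χ (k + i * d) = χ k) ∧ Cluster j r C m}

/-- **Theorem.** For every `j` there are `r` and `C` such that for every `β > 0` there is `ε > 0` such that for all
`s ≥ 1` and `q` there is `A` with the following property. For some `c > 0` and all large `X`, for every colouring `χ`
of the natural numbers with `q` colours, at least `c X / (log log log log X) ^ 2` of the integers `n` with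
`X < n ≤ 3 X` have a decomposition `n = k + m` with `k, m ≥ 1`, `m ≤ (log X) ^ A`, such that for some
`1 ≤ d ≤ (log X) ^ A` and each of the numbers `k' = k, k + d, ..., k + (s - 1) d`

* `χ k' = χ k`, `6 k' - 1` is a prime, `6 k' + 1` has at most two prime factors, all larger than `X ^ (1 / 9)`,
* every integer at distance at most `ε log X` from `6 k'`, other than `6 k' ± 1`, has a prime factor `≤ X ^ β`,

and `p_m, ..., p_{m+j} ≤ p_m + C` and all `p_{m+l} + 2`, `0 ≤ l ≤ j`, have at most `r` prime factors. -/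
theorem result (j : ℕ) : ∃ r C : ℕ, ∀ β : ℝ, 0 < β → ∃ ε : ℝ, 0 < ε ∧ ∀ s q : ℕ, 1 ≤ s → ∃ A : ℕ,
    ∃ c : ℝ, 0 < c ∧ ∀ᶠ X : ℕ in atTop, ∀ χ : ℕ → Fin q,
      c * X / Real.log (Real.log (Real.log (Real.log X))) ^ 2 ≤ ((Grid s j r C A ε β χ X).ncard : ℝ) := by
  classical
  obtain ⟨r, C, h⟩ := Pool.Agent.T6.H56.EA.grid j
  refine ⟨r, C, fun β hβ => ?_⟩
  obtain ⟨ε, hε, h⟩ := h β hβ
  refine ⟨ε, hε, fun s q hs => ?_⟩
  obtain ⟨A, h⟩ := h s q hs
  refine ⟨A, ?_⟩
  -- the worst colouring for each `X`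
  by_cases hq : q = 0
  · subst hq
    exact ⟨1, one_pos, Eventually.of_forall fun X χ => (χ 0).elim0⟩
  have hqne : Nonempty (ℕ → Fin q) := ⟨fun _ => ⟨0, Nat.pos_of_ne_zero hq⟩⟩
  have hmin : ∀ X : ℕ, ∃ χ : ℕ → Fin q, ∀ χ' : ℕ → Fin q,
      (Grid s j r C A ε β χ X).ncard ≤ (Grid s j r C A ε β χ' X).ncard := by
    intro X
    let f : (ℕ → Fin q) → ℕ := fun χ => (Grid s j r C A ε β χ X).ncard
    have hne : (Set.range f).Nonempty := Set.range_nonempty f
    obtain ⟨χ, hχ⟩ := Nat.sInf_mem hne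
    refine ⟨χ, fun χ' => ?_⟩
    have h1 : sInf (Set.range f) ≤ f χ' := Nat.sInf_le ⟨χ', rfl⟩
    rw [← hχ] at h1
    exact h1
  choose χ hχ using hmin
  obtain ⟨c, hc, hX⟩ := h χ
  refine ⟨c, hc, ?_⟩
  filter_upwards [hX] with X hX
  intro χ'
  refine hX.trans ?_
  refine le_trans ?_ (Nat.cast_le.2 (hχ X χ'))
  apply le_of_eq
  rfl

end Pool.Agent.Results.MP_ea8352_nt.ChenGrids
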