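import Pool.Agent.T6.H56.EA.ChP

set_option autoImplicit false
set_option maxHeartbeats 1000000

/-! # Chen pairs plus index sets of positive lower density

`n = k + m` is admissible if `6 k - 1` and `p_m` both are the lower members of twin prime pairs. Here `6 k - 1` is
a prime and `6 k + 1` has at most two prime factors, all other integers near `6 k` have small prime factors, the
same holds for all terms of a one-coloured progression `k, k + d, ..., k + (s - 1) d`, and `m` runs over an arbitrary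
set of indices of positive lower density, for instance over the `m` with `p_{m + j} - p_m ≤ δ log p_m`. A positive
proportion of all integers is represented.
-/

namespace Pool.Agent.Results.MP_ea8352_nt.ChenProportion

open Finset Filter

/-- The `m`-th prime: `p 1 = 2`, `p 2 = 3`, and so on. -/
noncomputable def p (m : ℕ) : ℕ := Nat.nth Nat.Prime (m - 1)

/-- `6 k - 1` is a prime, `6 k + 1` has at most two prime factors, counted with multiplicity, all of them are larger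
than `X ^ (1 / 9)`, and every other integer `z` at distance at most `w` from `6 k` has a prime factor `≤ y`. -/
def Chen (X : ℕ) (w y : ℝ) (k : ℕ) : Prop :=
  (6 * k - 1).Prime ∧ (6 * k + 1).primeFactorsList.length ≤ 2 ∧
    (∀ q : ℕ, q.Prime → q ∣ 6 * k + 1 → (X : ℝ) ^ (1 / 9 : ℝ) < (q : ℝ)) ∧
    ∀ z : ℤ, |(z : ℝ) - 6 * k| ≤ w → z ≠ 6 * k - 1 → z ≠ 6 * k + 1 →
      ∃ q : ℕ, q.Prime ∧ (q : ℝ) ≤ y ∧ (q : ℤ) ∣ z

/-- The `n` with `X < n ≤ 3 X` which have a decomposition `n = k + m` with `k ≥ 1`, `m ∈ M`, `1 ≤ m ≤ (log X) ^ A`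
such that for some `d` with `1 ≤ d ≤ (log X) ^ A` all the terms of the progression `k, k + d, ..., k + (s - 1) d` are
isolated Chen indices and have the same colour. -/
def Sums (s A : ℕ) (ε β : ℝ) (M : Set ℕ) {q : ℕ} (χ : ℕ → Fin q) (X : ℕ) : Set ℕ :=
  {n : ℕ | X < n ∧ n ≤ 3 * X ∧ ∃ k m d : ℕ, 1 ≤ k ∧ 1 ≤ m ∧ 1 ≤ d ∧ k + m = n ∧ m ∈ M ∧
    (m : ℝ) ≤ Real.log X ^ A ∧ (d : ℝ) ≤ Real.log X ^ A ∧
    ∀ i < s, Chen X (ε * Real.log X) ((X : ℝ) ^ β) (k + i * d) ∧ χ (k + i * d) = χ k}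

/-- The number of elements of `M` in `[1, t]`. -/
noncomputable def count (M : Set ℕ) (t : ℕ) : ℕ := (M ∩ Set.Icc 1 t).ncard

lemma count_eq (M : Set ℕ) (t : ℕ) : count M t = Pool.Agent.T6.H56.EA.cnt M t := by
  classical
  unfold count Pool.Agent.T6.H56.EA.cnt
  rw [← Set.ncard_coe_finset]
  congr 1
  ext m
  simp only [Set.mem_inter_iff, Set.mem_Icc, coe_filter, mem_Icc, Set.mem_setOf_eq]
  tauto

lemma sums_finite (s A : ℕ) (ε β : ℝ) (M : Set ℕ) {q : ℕ} (χ : ℕ → Fin q) (X : ℕ) :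
    (Sums s A ε β M χ X).Finite :=
  (Set.finite_Iic (3 * X)).subset (fun _ hn => hn.2.1)

lemma sub_sums {s A : ℕ} {ε β : ℝ} {M M' : Set ℕ} {q : ℕ} {χ : ℕ → ℕ → Fin q} {X : ℕ} (hX : 1 ≤ Real.log X)
    (hM : ∀ m ∈ M, 1 ≤ m → m ∈ M') :
    Pool.Agent.T6.H56.EA.SmG (Pool.Agent.T6.H56.EA.Ft s A ε β χ) 3 M X ⊆
      Sums s (max A 3) ε β M' (χ X) X := by
  rintro n ⟨h1, h2, k, m, h3, h4, h5, h6, h7, -, -, d, h8, h9, h10⟩
  exact ⟨h1, h2, k, m, d, h3, h4, h8, h5, hM m h6 h4, h7.trans (pow_le_pow_right₀ hX (le_max_right _ _)),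
    h9.trans (pow_le_pow_right₀ hX (le_max_left _ _)), h10⟩

/-- **Theorem.** For every `β > 0` there is `ε > 0` such that for all `s ≥ 1` and `q` there is `A` with the following
properties.

(1) For every set `M` of positive integers of positive lower density there is `c > 0` such that for all large `X` and
every colouring `χ` of the natural numbers with `q` colours at least `c X` of the integers `n` with `X < n ≤ 3 X` have
a decomposition `n = k + m` with `k ≥ 1`, `m ∈ M`, `1 ≤ m ≤ (log X) ^ A`, such that for some `1 ≤ d ≤ (log X) ^ A` and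
each of the numbers `k' = k, k + d, ..., k + (s - 1) d`

* `χ k' = χ k`, `6 k' - 1` is a prime, `6 k' + 1` has at most two prime factors, all larger than `X ^ (1 / 9)`,
* every integer at distance at most `ε log X` from `6 k'`, other than `6 k' ± 1`, has a prime factor `≤ X ^ β`.

(2) For every `j` and `δ > 0` this applies to the set `M` of the `m` with `p_{m + j} - p_m ≤ δ log p_m`. -/
theorem result (β : ℝ) (hβ : 0 < β) : ∃ ε : ℝ, 0 < ε ∧ ∀ s q : ℕ, 1 ≤ s → ∃ A : ℕ,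
    (∀ (M : Set ℕ) (η : ℝ), 0 < η → (∀ᶠ t : ℕ in atTop, η * t ≤ (count M t : ℝ)) →
      ∃ c : ℝ, 0 < c ∧ ∀ᶠ X : ℕ in atTop, ∀ χ : ℕ → Fin q, c * X ≤ ((Sums s A ε β M χ X).ncard : ℝ)) ∧
    ∀ (j : ℕ) (δ : ℝ), 0 < δ → ∃ c : ℝ, 0 < c ∧ ∀ᶠ X : ℕ in atTop, ∀ χ : ℕ → Fin q,
      c * X ≤ ((Sums s A ε β {m | (p (m + j) : ℝ) - p m ≤ δ * Real.log (p m)} χ X).ncard : ℝ) := by
  classical
  obtain ⟨ε, hε, h⟩ := Pool.Agent.T6.H56.EA.chp β hβ
  refine ⟨ε, hε, fun s q hs => ?_⟩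
  obtain ⟨A, h⟩ := h s q hs
  have hlogt : Tendsto (fun x : ℕ => Real.log (x : ℝ)) atTop atTop :=
    Real.tendsto_log_atTop.comp tendsto_natCast_atTop_atTop
  have key : ∀ (M : Set ℕ) (η : ℝ), 0 < η → (∀ᶠ t : ℕ in atTop, η * t ≤ (count M t : ℝ)) →
      ∀ M' : Set ℕ, (∀ m ∈ M, 1 ≤ m → m ∈ M') →
      ∃ c : ℝ, 0 < c ∧ ∀ᶠ X : ℕ in atTop, ∀ χ : ℕ → Fin q,
        c * X ≤ ((Sums s (max A 3) ε β M' χ X).ncard : ℝ) := by
    intro M η hη hM M' hMM'
    by_cases hq : q = 0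
    · subst hq
      exact ⟨1, one_pos, Eventually.of_forall fun X χ => (χ 0).elim0⟩
    have hqne : Nonempty (ℕ → Fin q) := ⟨fun _ => ⟨0, Nat.pos_of_ne_zero hq⟩⟩
    -- the worst colouring for each `X`
    have hmin : ∀ X : ℕ, ∃ χ : ℕ → Fin q, ∀ χ' : ℕ → Fin q,
        (Sums s (max A 3) ε β M' χ X).ncard ≤ (Sums s (max A 3) ε β M' χ' X).ncard := by
      intro X
      let f : (ℕ → Fin q) → ℕ := fun χ => (Sums s (max A 3) ε β M' χ X).ncard
      have hne : (Set.range f).Nonempty := Set.range_nonempty f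
      obtain ⟨χ, hχ⟩ := Nat.sInf_mem hne
      refine ⟨χ, fun χ' => ?_⟩
      have h1 : sInf (Set.range f) ≤ f χ' := Nat.sInf_le ⟨χ', rfl⟩
      rw [← hχ] at h1
      exact h1
    choose χ hχ using hmin
    obtain ⟨c, hc, hX⟩ := h M η hη (by
      filter_upwards [hM] with t ht
      rwa [← count_eq]) χ
    refine ⟨c, hc, ?_⟩
    filter_upwards [hX, hlogt.eventually_ge_atTop 1] with X hX hX1
    intro χ'
    refine hX.trans ?_
    refine le_trans ?_ (Nat.cast_le.2 (hχ X χ'))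
    exact Nat.cast_le.2 (Set.ncard_le_ncard (sub_sums hX1 hMM') (sums_finite _ _ _ _ _ _ _))
  refine ⟨max A 3, ?_, ?_⟩
  · intro M η hη hM
    exact key M η hη hM M (fun m hm _ => hm)
  · intro j δ hδ
    obtain ⟨η, hη, h⟩ := Pool.Agent.T6.H56.EA.cnt_tight j δ hδ
      (Pool.Agent.T6.H56.EA.dens_pos (2 * j) (δ / 2) (by positivity))
    apply key {m : ℕ | Pool.Agent.T6.H56.EA.Tight j δ m} η hη
    · filter_upwards [h] with t ht
      rwa [count_eq]
    · intro m hm _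
      have h4 : (p (m + j) : ℝ) ≤ p m + δ * Real.log (p m) := hm
      show (p (m + j) : ℝ) - p m ≤ δ * Real.log (p m)
      linarith

end Pool.Agent.Results.MP_ea8352_nt.ChenProportion
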