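import Pool.Agent.T6.H56.EA.Runs

set_option autoImplicit false
set_option maxHeartbeats 1000000

/-! # Clusters of consecutive primes with almost prime companions

`n = k + m` is admissible if `6 k - 1` and `p_m` both are the lower members of twin prime pairs. Here `6 k - 1` is
the first of `j + 1` CONSECUTIVE primes `q_0 < q_1 < ... < q_j` in an interval of bounded length such that each
`q_i + 2` is almost prime, and `m` runs over an arbitrary set of indices which is not too sparse, for instance over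
the indices with the same property. In the latter case each of `n, n + 1, ..., n + j` has a decomposition
`n + l = k + (m + l)` in which `6 k - 1` and `p_{m + l}` are primes with almost prime companions `6 k + 1` and
`p_{m + l} + 2`.
-/

namespace Pool.Agent.Results.MP_ea8352_nt.ConsecutiveClusters

open Finset Filter

/-- The `m`-th prime: `p 1 = 2`, `p 2 = 3`, and so on. -/
noncomputable def p (m : ℕ) : ℕ := Nat.nth Nat.Prime (m - 1)

/-- The consecutive primes `p_i, p_{i+1}, ..., p_{i+j}` lie in an interval of length `C`, and each of the numbers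
`p_i + 2, p_{i+1} + 2, ..., p_{i+j} + 2` has at most `r` prime factors, counted with multiplicity. -/
def Cluster (j r C i : ℕ) : Prop :=
  p (i + j) ≤ p i + C ∧ ∀ l ≤ j, (p (i + l) + 2).primeFactorsList.length ≤ r

/-- The `n` with `X < n ≤ 3 X` which have a decomposition `n = k + m` with `k, m ≥ 1`, `m ∈ M` and
`m ≤ (log X) ^ A`, in which `6 k - 1` is a prime, the `i`-th say, such that `p_i, ..., p_{i+j}` form a cluster. -/
def Sums (j r C A : ℕ) (M : Set ℕ) (X : ℕ) : Set ℕ :=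
  {n : ℕ | X < n ∧ n ≤ 3 * X ∧ ∃ k m i : ℕ, 1 ≤ k ∧ 1 ≤ m ∧ 1 ≤ i ∧ k + m = n ∧ m ∈ M ∧
    (m : ℝ) ≤ Real.log X ^ A ∧ 6 * k - 1 = p i ∧ Cluster j r C i}

/-- The number of elements of `M` in `[1, t]`. -/
noncomputable def count (M : Set ℕ) (t : ℕ) : ℕ := (M ∩ Set.Icc 1 t).ncard

lemma p_eq (m : ℕ) : p m = Pool.Agent.T6.H56.EA.pr m := rfl

lemma count_eq (M : Set ℕ) (t : ℕ) : count M t = Pool.Agent.T6.H56.EA.cnt M t := by
  classical
  unfold count Pool.Agent.T6.H56.EA.cnt
  rw [← Set.ncard_coe_finset]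
  congr 1
  ext m
  simp only [Set.mem_inter_iff, Set.mem_Icc, coe_filter, mem_Icc, Set.mem_setOf_eq]
  tauto

lemma cluster_mono {j r r' C C' i : ℕ} (hr : r ≤ r') (hC : C ≤ C') (h : Cluster j r C i) :
    Cluster j r' C' i := ⟨h.1.trans (by omega), fun l hl => (h.2 l hl).trans hr⟩

lemma sums_sub {j r r' C C' A A' : ℕ} {M M' : Set ℕ} {X : ℕ} (hr : r ≤ r') (hC : C ≤ C') (hA : A ≤ A')
    (hM : ∀ m ∈ M, 1 ≤ m → m ∈ M') (hX : 1 ≤ Real.log X) :
    Pool.Agent.T6.H56.EA.Sm j r C A M X ⊆ Sums j r' C' A' M' X := by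
  rintro n ⟨h1, h2, k, m, h3, h4, h5, h6, h7, h8⟩
  have h9 : Pool.Agent.T6.H56.EA.pr (Nat.count Nat.Prime (6 * k - 1) + 1) = 6 * k - 1 :=
    Pool.Agent.T6.H56.EA.pr_count _ h8.1
  refine ⟨h1, h2, k, m, Nat.count Nat.Prime (6 * k - 1) + 1, h3, h4, by omega, h5, hM m h6 h4,
    h7.trans (pow_le_pow_right₀ hX hA), h9.symm, ?_⟩
  apply cluster_mono hr hC
  rw [← h9] at h8
  exact Pool.Agent.T6.H56.EA.run_of_Cl (by omega) h8

lemma sums_finite (j r C A : ℕ) (M : Set ℕ) (X : ℕ) : (Sums j r C A M X).Finite :=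
  (Set.finite_Iic (3 * X)).subset (fun _ hn => hn.2.1)

lemma sums_card {j r r' C C' A A' : ℕ} {M M' : Set ℕ} {X : ℕ} (hr : r ≤ r') (hC : C ≤ C') (hA : A ≤ A')
    (hM : ∀ m ∈ M, 1 ≤ m → m ∈ M') (hX : 1 ≤ Real.log X) :
    ((Pool.Agent.T6.H56.EA.Sm j r C A M X).ncard : ℝ) ≤ ((Sums j r' C' A' M' X).ncard : ℝ) := by
  exact_mod_cast Set.ncard_le_ncard (sums_sub hr hC hA hM hX) (sums_finite _ _ _ _ _ _)

/-- **Theorem.** For every `j` there are `r`, `C`, `A` with the following properties.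

(1) For some `c > 0` and all large `X` at least `c X / (log log log log X) ^ A` of the integers `n` with
`X < n ≤ 3 X` have a decomposition `n = k + m` with `k, m ≥ 1` and `m ≤ (log X) ^ A` in which `6 k - 1` and `p_m`
both are primes, and each of them is the first of `j + 1` consecutive primes `q_0 < q_1 < ... < q_j ≤ q_0 + C` such
that all `q_l + 2` have at most `r` prime factors.

(2) The same with `m` in any prescribed set `M` which has, for some `B`, at least `t / (log t) ^ B` elements up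
to `t` for all large `t`. -/
theorem result (j : ℕ) : ∃ r C A : ℕ,
    (∃ c : ℝ, 0 < c ∧ ∀ᶠ X : ℕ in atTop,
      c * X / Real.log (Real.log (Real.log (Real.log X))) ^ A ≤
        ((Sums j r C A {m | Cluster j r C m} X).ncard : ℝ)) ∧
    ∀ (M : Set ℕ) (B : ℕ), (∀ᶠ t : ℕ in atTop, (t : ℝ) / Real.log t ^ B ≤ (count M t : ℝ)) →
      ∃ c : ℝ, 0 < c ∧ ∀ᶠ X : ℕ in atTop,
        c * X / Real.log (Real.log (Real.log (Real.log X))) ^ A ≤ ((Sums j r C A M X).ncard : ℝ) := by
  obtain ⟨r1, C1, A, h1⟩ := Pool.Agent.T6.H56.EA.sums_log j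
  obtain ⟨r3, C3, B, h3⟩ := Pool.Agent.T6.H56.EA.dens_log j
  have hlogt : Tendsto (fun x : ℕ => Real.log (x : ℝ)) atTop atTop :=
    Real.tendsto_log_atTop.comp tendsto_natCast_atTop_atTop
  have key : ∀ (M : Set ℕ) (B : ℕ), (∀ᶠ t : ℕ in atTop, (t : ℝ) / Real.log t ^ B ≤ (count M t : ℝ)) →
      ∀ M' : Set ℕ, (∀ m ∈ M, 1 ≤ m → m ∈ M') →
      ∃ c : ℝ, 0 < c ∧ ∀ᶠ X : ℕ in atTop,
        c * X / Real.log (Real.log (Real.log (Real.log X))) ^ A ≤
          ((Sums j (max r1 r3) (max C1 C3) A M' X).ncard : ℝ) := by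
    intro M B hM M' hMM'
    obtain ⟨c, hc, h⟩ := h1 M B (by
      filter_upwards [hM] with t ht
      rwa [← count_eq])
    refine ⟨c, hc, ?_⟩
    filter_upwards [h, hlogt.eventually_ge_atTop 1] with X hX hX1
    exact hX.trans (sums_card (le_max_left _ _) (le_max_left _ _) le_rfl hMM' hX1)
  refine ⟨max r1 r3, max C1 C3, A, ?_, ?_⟩
  · apply key {m : ℕ | Pool.Agent.T6.H56.EA.Cl j r3 C3 (Pool.Agent.T6.H56.EA.pr m)} B
    · filter_upwards [h3] with t ht
      rwa [count_eq]
    · intro m hm hm1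
      apply cluster_mono (le_max_right _ _) (le_max_right _ _)
      exact Pool.Agent.T6.H56.EA.run_of_Cl hm1 hm
  · intro M B hM
    exact key M B hM M (fun m hm _ => hm)

end Pool.Agent.Results.MP_ea8352_nt.ConsecutiveClusters
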