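import Pool.Agent.T6.H56.EA.Runs

set_option autoImplicit false
set_option maxHeartbeats 1000000

/-! # A positive proportion of the integers

`n = k + m` is admissible if `6 k - 1` and `p_m` both are the lower members of twin prime pairs. Here `6 k - 1` is
the first of `j + 1` CONSECUTIVE primes `q_0 < q_1 < ... < q_j` in an interval of bounded length such that each
`q_i + 2` is almost prime, and `m` runs over an arbitrary set of indices of positive lower density, for instance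
over the indices with `p_{m + j} - p_m ≤ ε log p_m`. A positive proportion of all integers is represented.
-/

namespace Pool.Agent.Results.MP_ea8352_nt.PositiveProportion

open Finset Filter

/-- The `m`-th prime: `p 1 = 2`, `p 2 = 3`, and so on. -/
noncomputable def p (m : ℕ) : ℕ := Nat.nth Nat.Prime (m - 1)

/-- The consecutive primes `p_i, p_{i+1}, ..., p_{i+j}` lie in an interval of length `C`, and each of the numbers
`p_i + 2, p_{i+1} + 2, ..., p_{i+j} + 2` has at most `r` prime factors, counted with multiplicity. -/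
def Cluster (j r C i : ℕ) : Prop :=
  p (i + j) ≤ p i + C ∧ ∀ l ≤ j, (p (i + l) + 2).primeFactorsList.length ≤ r

/-- The `n` with `X < n ≤ 3 X` which have a decomposition `n = k + m` with `k, m ≥ 1`, `m ∈ M` and
`m ≤ (log X) ^ A`, in which `6 k - 1` is a prime, the `i`-th say, such that `p_i, ..., p_{i+j}` form a cluster. -/
def Sums (j r C A : ℕ) (M : Set ℕ) (X : ℕ) : Set ℕ :=
  {n : ℕ | X < n ∧ n ≤ 3 * X ∧ ∃ k m i : ℕ, 1 ≤ k ∧ 1 ≤ m ∧ 1 ≤ i ∧ k + m = n ∧ m ∈ M ∧
    (m : ℝ) ≤ Real.log X ^ A ∧ 6 * k - 1 = p i ∧ Cluster j r C i}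

/-- The number of elements of `M` in `[1, t]`. -/
noncomputable def count (M : Set ℕ) (t : ℕ) : ℕ := (M ∩ Set.Icc 1 t).ncard

lemma p_eq (m : ℕ) : p m = Pool.Agent.T6.H56.EA.pr m := rfl

lemma count_eq (M : Set ℕ) (t : ℕ) : count M t = Pool.Agent.T6.H56.EA.cnt M t := by
  classical
  unfold count Pool.Agent.T6.H56.EA.cnt
  rw [← Set.ncard_coe_finset]
  congr 1
  ext m
  simp only [Set.mem_inter_iff, Set.mem_Icc, coe_filter, mem_Icc, Set.mem_setOf_eq]
  tauto

lemma cluster_mono {j r r' C C' i : ℕ} (hr : r ≤ r') (hC : C ≤ C') (h : Cluster j r C i) :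
    Cluster j r' C' i := ⟨h.1.trans (by omega), fun l hl => (h.2 l hl).trans hr⟩

lemma sums_sub {j r r' C C' A A' : ℕ} {M M' : Set ℕ} {X : ℕ} (hr : r ≤ r') (hC : C ≤ C') (hA : A ≤ A')
    (hM : ∀ m ∈ M, 1 ≤ m → m ∈ M') (hX : 1 ≤ Real.log X) :
    Pool.Agent.T6.H56.EA.Sm j r C A M X ⊆ Sums j r' C' A' M' X := by
  rintro n ⟨h1, h2, k, m, h3, h4, h5, h6, h7, h8⟩
  have h9 : Pool.Agent.T6.H56.EA.pr (Nat.count Nat.Prime (6 * k - 1) + 1) = 6 * k - 1 :=
    Pool.Agent.T6.H56.EA.pr_count _ h8.1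
  refine ⟨h1, h2, k, m, Nat.count Nat.Prime (6 * k - 1) + 1, h3, h4, by omega, h5, hM m h6 h4,
    h7.trans (pow_le_pow_right₀ hX hA), h9.symm, ?_⟩
  apply cluster_mono hr hC
  rw [← h9] at h8
  exact Pool.Agent.T6.H56.EA.run_of_Cl (by omega) h8

lemma sums_finite (j r C A : ℕ) (M : Set ℕ) (X : ℕ) : (Sums j r C A M X).Finite :=
  (Set.finite_Iic (3 * X)).subset (fun _ hn => hn.2.1)

lemma sums_card {j r r' C C' A A' : ℕ} {M M' : Set ℕ} {X : ℕ} (hr : r ≤ r') (hC : C ≤ C') (hA : A ≤ A')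
    (hM : ∀ m ∈ M, 1 ≤ m → m ∈ M') (hX : 1 ≤ Real.log X) :
    ((Pool.Agent.T6.H56.EA.Sm j r C A M X).ncard : ℝ) ≤ ((Sums j r' C' A' M' X).ncard : ℝ) := by
  exact_mod_cast Set.ncard_le_ncard (sums_sub hr hC hA hM hX) (sums_finite _ _ _ _ _ _)

/-- **Theorem.** For every `j` there are `r`, `C`, `A` with the following properties.

(1) For every set `M` of positive integers of positive lower density there is `c > 0` such that for all large `X`
at least `c X` of the integers `n` with `X < n ≤ 3 X` have a decomposition `n = k + m` with `k ≥ 1`, `m ∈ M`,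
`1 ≤ m ≤ (log X) ^ A`, in which `6 k - 1` is a prime and the first of `j + 1` consecutive primes
`q_0 < q_1 < ... < q_j ≤ q_0 + C` such that all `q_l + 2` have at most `r` prime factors.

(2) For every `ε > 0` this applies to the set `M` of the `m` with `p_{m + j} - p_m ≤ ε log p_m`. -/
theorem result (j : ℕ) : ∃ r C A : ℕ,
    (∀ (M : Set ℕ) (η : ℝ), 0 < η → (∀ᶠ t : ℕ in atTop, η * t ≤ (count M t : ℝ)) →
      ∃ c : ℝ, 0 < c ∧ ∀ᶠ X : ℕ in atTop, c * X ≤ ((Sums j r C A M X).ncard : ℝ)) ∧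
    ∀ ε : ℝ, 0 < ε → ∃ c : ℝ, 0 < c ∧ ∀ᶠ X : ℕ in atTop,
      c * X ≤ ((Sums j r C A {m | (p (m + j) : ℝ) - p m ≤ ε * Real.log (p m)} X).ncard : ℝ) := by
  obtain ⟨r, C, A, h2⟩ := Pool.Agent.T6.H56.EA.sums_pos j
  have hlogt : Tendsto (fun x : ℕ => Real.log (x : ℝ)) atTop atTop :=
    Real.tendsto_log_atTop.comp tendsto_natCast_atTop_atTop
  have key2 : ∀ (M : Set ℕ) (η : ℝ), 0 < η → (∀ᶠ t : ℕ in atTop, η * t ≤ (count M t : ℝ)) →
      ∀ M' : Set ℕ, (∀ m ∈ M, 1 ≤ m → m ∈ M') →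
      ∃ c : ℝ, 0 < c ∧ ∀ᶠ X : ℕ in atTop, c * X ≤ ((Sums j r C A M' X).ncard : ℝ) := by
    intro M η hη hM M' hMM'
    obtain ⟨c, hc, h⟩ := h2 M η hη (by
      filter_upwards [hM] with t ht
      rwa [← count_eq])
    refine ⟨c, hc, ?_⟩
    filter_upwards [h, hlogt.eventually_ge_atTop 1] with X hX hX1
    exact hX.trans (sums_card le_rfl le_rfl le_rfl hMM' hX1)
  refine ⟨r, C, A, ?_, ?_⟩
  · intro M η hη hM
    exact key2 M η hη hM M (fun m hm _ => hm)
  · intro ε hε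
    obtain ⟨η, hη, h⟩ := Pool.Agent.T6.H56.EA.cnt_tight j ε hε
      (Pool.Agent.T6.H56.EA.dens_pos (2 * j) (ε / 2) (by positivity))
    apply key2 {m : ℕ | Pool.Agent.T6.H56.EA.Tight j ε m} η hη
    · filter_upwards [h] with t ht
      rwa [count_eq]
    · intro m hm _
      have h4 : (p (m + j) : ℝ) ≤ p m + ε * Real.log (p m) := hm
      show (p (m + j) : ℝ) - p m ≤ ε * Real.log (p m)
      linarith

end Pool.Agent.Results.MP_ea8352_nt.PositiveProportion
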